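import Pool.Agent.BTS.F4

set_option autoImplicit false

open scoped Classical

namespace Pool.Agent.Results.MP_4a8bc2_pr.SharpTwoNeighbour

/-- Two-neighbour bootstrap percolation in `[n]^d`, `d ≥ 2`: there is a constant `C > 0` such that for all large `n`,
`p_c([n]^d, 2) ^ (1/(d-1)) ≥ λ(d,2) / log n - C / (log n)^(3/2)`, where
`λ(d,2) = ∫_0^∞ -log β(1 - e^{-z^{d-1}}) dz` and `β(u) = (u + √(u (4 - 3u))) / 2`. -/
theorem result (d : ℕ) (hd : 2 ≤ d) : ∃ C : ℝ, 0 < C ∧ ∃ N : ℕ, ∀ n : ℕ, N ≤ n →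
    0 < (∫ z in Set.Ioi (0 : ℝ), - Real.log (((1 - Real.exp (-(z ^ (d - 1)))) +
      Real.sqrt ((1 - Real.exp (-(z ^ (d - 1)))) * (4 - 3 * (1 - Real.exp (-(z ^ (d - 1))))))) / 2)) /
        Real.log n - C / Real.log n ^ ((3 : ℝ) / 2) ∧
    ((∫ z in Set.Ioi (0 : ℝ), - Real.log (((1 - Real.exp (-(z ^ (d - 1)))) +
      Real.sqrt ((1 - Real.exp (-(z ^ (d - 1)))) * (4 - 3 * (1 - Real.exp (-(z ^ (d - 1))))))) / 2)) /
        Real.log n - C / Real.log n ^ ((3 : ℝ) / 2)) ^ (d - 1) ≤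
      sInf {p : ℝ | 0 ≤ p ∧ p ≤ 1 ∧ (1:ℝ)/2 ≤ ∑ A : Finset (Fin d → Fin n),
            (if (∀ S : Finset (Fin d → Fin n), A ⊆ S →
                (∀ v : Fin d → Fin n,
                  2 ≤ (Finset.univ.filter (fun u : Fin d → Fin n =>
                    u ∈ S ∧ ∑ i, |((u i : ℕ) : ℤ) - ((v i : ℕ) : ℤ)| = 1)).card → v ∈ S) →
                S = Finset.univ)
            then p ^ A.card * (1 - p) ^ (Fintype.card (Fin d → Fin n) - A.card) else 0)} :=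
  BTS.main_result d hd

end Pool.Agent.Results.MP_4a8bc2_pr.SharpTwoNeighbour
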